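import Pool.Agent.H162R2.LC.Stmts

set_option autoImplicit false

/-! Task A (helper74): order statistics of continuous functions are continuous. -/

open Finset

namespace H162R2.LC

theorem t_A : T_A := by
  classical
  intro ι _ S v hv i hi1 hiS
  have hne : (powersetCard i S).Nonempty := powersetCard_nonempty.2 hiS
  have hTne : ∀ T ∈ powersetCard i S, T.Nonempty := by
    intro T hT
    rw [mem_powersetCard] at hT
    rw [← card_pos]
    omega
  set g : Finset ι → ℝ → ℝ := fun T t =>
    if h : T.Nonempty then T.inf' h (fun a => v a t) else 0 with hg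
  have hgval : ∀ T (h : T.Nonempty) t, g T t = T.inf' h (fun a => v a t) := by
    intro T h t
    simp only [hg, h, dif_pos]
  refine ⟨fun t => (powersetCard i S).sup' hne (fun T => g T t), ?_, ?_, ?_⟩
  · apply Continuous.finset_sup'_apply
    intro T hT
    have hT' := hTne T hT
    have e : g T = fun t => T.inf' hT' (fun a => v a t) := by
      funext t; exact hgval T hT' t
    rw [e]
    apply Continuous.finset_inf'_apply
    intro a ha
    exact hv a ((mem_powersetCard.1 hT).1 ha)
  · intro t c
    rw [Finset.lt_sup'_iff]
    constructor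
    · rintro ⟨T, hT, hlt⟩
      rw [hgval T (hTne T hT), Finset.lt_inf'_iff] at hlt
      rw [mem_powersetCard] at hT
      rw [← hT.2]
      apply card_le_card
      intro a ha
      rw [mem_filter]
      exact ⟨hT.1 ha, hlt a ha⟩
    · intro h
      obtain ⟨T, hTs, hTc⟩ := exists_subset_card_eq h
      have hT : T ∈ powersetCard i S := mem_powersetCard.2 ⟨hTs.trans (filter_subset _ _), hTc⟩
      refine ⟨T, hT, ?_⟩
      rw [hgval T (hTne T hT), Finset.lt_inf'_iff]
      intro a ha
      exact (mem_filter.1 (hTs ha)).2
  · intro t c
    rw [Finset.le_sup'_iff]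
    constructor
    · rintro ⟨T, hT, hlt⟩
      rw [hgval T (hTne T hT), Finset.le_inf'_iff] at hlt
      rw [mem_powersetCard] at hT
      rw [← hT.2]
      apply card_le_card
      intro a ha
      rw [mem_filter]
      exact ⟨hT.1 ha, hlt a ha⟩
    · intro h
      obtain ⟨T, hTs, hTc⟩ := exists_subset_card_eq h
      have hT : T ∈ powersetCard i S := mem_powersetCard.2 ⟨hTs.trans (filter_subset _ _), hTc⟩
      refine ⟨T, hT, ?_⟩
      rw [hgval T (hTne T hT), Finset.le_inf'_iff]
      intro a ha
      exact (mem_filter.1 (hTs ha)).2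

end H162R2.LC
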