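import Pool.Agent.H162R2.LC.Stmts

set_option autoImplicit false

/-! Task HS (helper74): discrete ham sandwich for separated sets, given task A. -/

open Finset

namespace H162R2.LC

namespace HSaux

theorem card_le_split {ι : Type} (A : Finset ι) (f : ι → ℝ) (s : ℝ) :
    (A.filter fun u => s ≤ f u).card ≤
      (A.filter fun u => s < f u).card + (A.filter fun u => f u = s).card := by
  classical
  rw [← card_union_of_disjoint]
  · apply card_le_card
    intro u hu
    rw [mem_filter] at hu
    rw [mem_union, mem_filter, mem_filter]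
    rcases lt_or_eq_of_le hu.2 with h | h
    · exact Or.inl ⟨hu.1, h⟩
    · exact Or.inr ⟨hu.1, h.symm⟩
  · rw [Finset.disjoint_left]
    intro u hu hu'
    rw [mem_filter] at hu hu'
    linarith [hu.2, hu'.2]

end HSaux

open HSaux in
theorem t_HS (hA : T_A) : T_HS := by
  intro n p hp A B a b c hab hAneg hBpos i j hi hiA hj hjB
  have hn : 0 < a ^ 2 + b ^ 2 := by
    rcases hab with h | h
    · have := sq_pos_of_ne_zero h; nlinarith [sq_nonneg b]
    · have := sq_pos_of_ne_zero h; nlinarith [sq_nonneg a]
  set phi : Fin n → ℝ := fun u => aff a b c (p u) with hphi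
  set psi : Fin n → ℝ := fun u => -b * (p u).1 + a * (p u).2 with hpsi
  set v : Fin n → ℝ → ℝ := fun u t => psi u + t * phi u with hv
  have haff : ∀ (t s : ℝ) (u : Fin n),
      aff (-b + t * a) (a + t * b) (s + t * c) (p u) = v u t - s := by
    intro t s u
    simp only [hv, hpsi, hphi, aff]
    ring
  have hne : ∀ t : ℝ, (-b + t * a ≠ 0 ∨ a + t * b ≠ 0) := by
    intro t
    by_contra hcon
    push Not at hcon
    have h1 : (-b + t * a) ^ 2 + (a + t * b) ^ 2 = (1 + t ^ 2) * (a ^ 2 + b ^ 2) := by ring
    rw [hcon.1, hcon.2] at h1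
    have : 0 < (1 + t ^ 2) * (a ^ 2 + b ^ 2) := by positivity
    linarith
  have hcont : ∀ u, Continuous (v u) := by
    intro u
    simp only [hv]
    fun_prop
  obtain ⟨α, hαc, hα1, hα2⟩ := hA (Fin n) A v (fun u _ => hcont u) i hi hiA.le
  obtain ⟨α', hα'c, hα'1, hα'2⟩ := hA (Fin n) A v (fun u _ => hcont u) (i + 1) (by omega) hiA
  obtain ⟨β, hβc, hβ1, hβ2⟩ := hA (Fin n) B v (fun u _ => hcont u) j hj hjB.le
  obtain ⟨β', hβ'c, hβ'1, hβ'2⟩ := hA (Fin n) B v (fun u _ => hcont u) (j + 1) (by omega) hjB
  have hαle : ∀ t, α' t ≤ α t := by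
    intro t
    rw [hα2]
    have := (hα'2 t (α' t)).1 le_rfl
    omega
  have hβle : ∀ t, β' t ≤ β t := by
    intro t
    rw [hβ2]
    have := (hβ'2 t (β' t)).1 le_rfl
    omega
  -- two equal consecutive order statistics give two equal values
  have htwoA : ∀ t, α t ≤ α' t → 2 ≤ (A.filter fun u => v u t = α' t).card := by
    intro t h
    have h1 := (hα'2 t (α' t)).1 le_rfl
    have h2 : ¬ (i ≤ (A.filter fun u => α' t < v u t).card) := by
      rw [← hα1]; exact not_lt.2 h
    have h3 := card_le_split A (fun u => v u t) (α' t)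
    omega
  have htwoB : ∀ t, β t ≤ β' t → 2 ≤ (B.filter fun u => v u t = β' t).card := by
    intro t h
    have h1 := (hβ'2 t (β' t)).1 le_rfl
    have h2 : ¬ (j ≤ (B.filter fun u => β' t < v u t).card) := by
      rw [← hβ1]; exact not_lt.2 h
    have h3 := card_le_split B (fun u => v u t) (β' t)
    omega
  have hdisj : Disjoint A B := by
    rw [Finset.disjoint_left]
    intro u hu hu'
    have h1 := hAneg u hu
    have h2 := hBpos u hu'
    linarith
  set U1 : Set ℝ := {t | β' t < α t} with hU1
  set U2 : Set ℝ := {t | α' t < β t} with hU2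
  have hU1o : IsOpen U1 := isOpen_lt hβ'c hαc
  have hU2o : IsOpen U2 := isOpen_lt hα'c hβc
  have hcover : (Set.univ : Set ℝ) ⊆ U1 ∪ U2 := by
    intro t _
    by_contra hcon
    rw [Set.mem_union, not_or] at hcon
    simp only [hU1, hU2, Set.mem_setOf_eq, not_lt] at hcon
    obtain ⟨h1, h2⟩ := hcon
    have h3 := hαle t
    have h4 := hβle t
    have e1 : α t ≤ α' t := by linarith
    have e2 : β t ≤ β' t := by linarith
    have e3 : α' t = β' t := by linarith
    have hA2 := htwoA t e1
    have hB2 := htwoB t e2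
    have h5 := hp.2 (-b + t * a) (a + t * b) (β' t + t * c) (hne t)
    have h6 : (A.filter fun u => v u t = α' t) ∪ (B.filter fun u => v u t = β' t) ⊆
        (univ.filter fun i => aff (-b + t * a) (a + t * b) (β' t + t * c) (p i) = 0) := by
      intro u hu
      rw [mem_union, mem_filter, mem_filter] at hu
      rw [mem_filter]
      refine ⟨mem_univ _, ?_⟩
      rw [haff]
      rcases hu with hu | hu
      · rw [hu.2, e3]; ring
      · rw [hu.2]; ring
    have h7 := card_le_card h6
    rw [card_union_of_disjoint (Finset.disjoint_of_subset_left (filter_subset _ _)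
      (Finset.disjoint_of_subset_right (filter_subset _ _) hdisj))] at h7
    omega
  have hU1n : (Set.univ ∩ U1).Nonempty := by
    have hev : ∀ᶠ t : ℝ in Filter.atBot, ∀ u ∈ A, ∀ w ∈ B, v w t < v u t := by
      rw [Filter.eventually_all_finset]
      intro u hu
      rw [Filter.eventually_all_finset]
      intro w hw
      have h1 : phi u < 0 := hAneg u hu
      have h2 : 0 < phi w := hBpos w hw
      filter_upwards [Filter.eventually_lt_atBot ((psi u - psi w) / (phi w - phi u))] with t ht
      rw [lt_div_iff₀ (by linarith)] at ht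
      simp only [hv]
      nlinarith
    obtain ⟨t, ht⟩ := hev.exists
    refine ⟨t, Set.mem_univ _, ?_⟩
    show β' t < α t
    rw [hα1]
    have h1 := (hβ'2 t (β' t)).1 le_rfl
    have h2 : (B.filter fun u => β' t ≤ v u t).Nonempty := by
      rw [← card_pos]; omega
    obtain ⟨w, hw⟩ := h2
    rw [mem_filter] at hw
    have h3 : (A.filter fun u => β' t < v u t) = A := by
      rw [filter_eq_self]
      intro u hu
      exact lt_of_le_of_lt hw.2 (ht u hu w hw.1)
    rw [h3]
    exact hiA.le
  have hU2n : (Set.univ ∩ U2).Nonempty := by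
    have hev : ∀ᶠ t : ℝ in Filter.atTop, ∀ u ∈ A, ∀ w ∈ B, v u t < v w t := by
      rw [Filter.eventually_all_finset]
      intro u hu
      rw [Filter.eventually_all_finset]
      intro w hw
      have h1 : phi u < 0 := hAneg u hu
      have h2 : 0 < phi w := hBpos w hw
      filter_upwards [Filter.eventually_gt_atTop ((psi u - psi w) / (phi w - phi u))] with t ht
      rw [div_lt_iff₀ (by linarith)] at ht
      simp only [hv]
      nlinarith
    obtain ⟨t, ht⟩ := hev.exists
    refine ⟨t, Set.mem_univ _, ?_⟩
    show α' t < β t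
    rw [hβ1]
    have h1 := (hα'2 t (α' t)).1 le_rfl
    have h2 : (A.filter fun u => α' t ≤ v u t).Nonempty := by
      rw [← card_pos]; omega
    obtain ⟨w, hw⟩ := h2
    rw [mem_filter] at hw
    have h3 : (B.filter fun u => α' t < v u t) = B := by
      rw [filter_eq_self]
      intro u hu
      exact lt_of_le_of_lt hw.2 (ht w hw.1 u hu)
    rw [h3]
    exact hjB.le
  obtain ⟨t₀, -, ht₀⟩ := isPreconnected_univ U1 U2 hU1o hU2o hcover hU1n hU2n
  have hinf : Set.Infinite (U1 ∩ U2) :=
    infinite_of_mem_nhds t₀ ((hU1o.inter hU2o).mem_nhds ht₀)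
  set bad : Set ℝ := ⋃ u : Fin n, ⋃ w : Fin n, {t | u ≠ w ∧ v u t = v w t} with hbad
  have hfin : bad.Finite := by
    apply Set.finite_iUnion
    intro u
    apply Set.finite_iUnion
    intro w
    apply Set.Subsingleton.finite
    rintro t₁ ⟨huw, h1⟩ t₂ ⟨-, h2⟩
    simp only [hv] at h1 h2
    by_cases hph : phi u = phi w
    · exfalso
      have h3 : psi u = psi w := by rw [hph] at h1; linarith
      apply huw
      apply hp.1
      simp only [hphi, hpsi, aff] at hph h3
      have e1 : (a ^ 2 + b ^ 2) * ((p u).1 - (p w).1) = 0 := by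
        linear_combination a * hph - b * h3
      have e2 : (a ^ 2 + b ^ 2) * ((p u).2 - (p w).2) = 0 := by
        linear_combination b * hph + a * h3
      have e3 : (p u).1 - (p w).1 = 0 := by
        rcases mul_eq_zero.1 e1 with h | h
        · exact absurd h hn.ne'
        · exact h
      have e4 : (p u).2 - (p w).2 = 0 := by
        rcases mul_eq_zero.1 e2 with h | h
        · exact absurd h hn.ne'
        · exact h
      exact Prod.ext (by linarith) (by linarith)
    · have h3 : (t₁ - t₂) * (phi u - phi w) = 0 := by linear_combination h1 - h2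
      rcases mul_eq_zero.1 h3 with h | h
      · linarith
      · exact absurd (by linarith) hph
  obtain ⟨t, ⟨ht1, ht2⟩, htb⟩ := (hinf.diff hfin).nonempty
  have hdist : ∀ u w : Fin n, u ≠ w → v u t ≠ v w t := by
    intro u w huw h
    apply htb
    rw [hbad, Set.mem_iUnion]
    refine ⟨u, ?_⟩
    rw [Set.mem_iUnion]
    exact ⟨w, huw, h⟩
  have hone : ∀ (S : Finset (Fin n)) (s : ℝ), ¬ 2 ≤ (S.filter fun u => v u t = s).card := by
    intro S s h
    obtain ⟨u, hu, w, hw, huw⟩ := Finset.one_lt_card.1 (show 1 < _ from h)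
    rw [mem_filter] at hu hw
    exact hdist u w huw (hu.2.trans hw.2.symm)
  have hα'α : α' t < α t := by
    by_contra h
    exact hone A _ (htwoA t (not_lt.1 h))
  have hβ'β : β' t < β t := by
    by_contra h
    exact hone B _ (htwoB t (not_lt.1 h))
  have hlt : max (α' t) (β' t) < min (α t) (β t) := by
    rw [max_lt_iff, lt_min_iff, lt_min_iff]
    exact ⟨⟨hα'α, ht2⟩, ⟨ht1, hβ'β⟩⟩
  have hsfin : (Set.range fun u => v u t).Finite := Set.finite_range _
  obtain ⟨s, ⟨hs1, hs2⟩, hs3⟩ := ((Set.Ioo_infinite hlt).diff hsfin).nonempty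
  rw [max_lt_iff] at hs1
  rw [lt_min_iff] at hs2
  refine ⟨-b + t * a, a + t * b, s + t * c, ⟨hne t, ?_⟩, ?_, ?_⟩
  · intro u
    rw [haff]
    intro h
    exact hs3 ⟨u, by simp only; linarith⟩
  · have e : (A.filter fun u => 0 < aff (-b + t * a) (a + t * b) (s + t * c) (p u)) =
        A.filter fun u => s < v u t := by
      apply filter_congr
      intro u _
      rw [haff, sub_pos]
    rw [e]
    have h1 := (hα1 t s).1 hs2.1
    have h2 : ¬ (i + 1 ≤ (A.filter fun u => s ≤ v u t).card) := by
      rw [← hα'2]; exact not_le.2 hs1.1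
    have h3 : (A.filter fun u => s < v u t).card ≤ (A.filter fun u => s ≤ v u t).card := by
      apply card_le_card
      intro u hu
      rw [mem_filter] at hu ⊢
      exact ⟨hu.1, hu.2.le⟩
    omega
  · have e : (B.filter fun u => 0 < aff (-b + t * a) (a + t * b) (s + t * c) (p u)) =
        B.filter fun u => s < v u t := by
      apply filter_congr
      intro u _
      rw [haff, sub_pos]
    rw [e]
    have h1 := (hβ1 t s).1 hs2.2
    have h2 : ¬ (j + 1 ≤ (B.filter fun u => s ≤ v u t).card) := by
      rw [← hβ'2]; exact not_le.2 hs1.2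
    have h3 : (B.filter fun u => s < v u t).card ≤ (B.filter fun u => s ≤ v u t).card := by
      apply card_le_card
      intro u hu
      rw [mem_filter] at hu ⊢
      exact ⟨hu.1, hu.2.le⟩
    omega

end H162R2.LC
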