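import Pool.Agent.H162R2.LC.Stmts

set_option autoImplicit false

/-! Task M (helper74): the main inequality. -/

open Finset

namespace H162R2.LC

namespace Maux

theorem two_choose (x : ℕ) : 2 * x.choose 2 = x * (x - 1) := by
  rw [Nat.choose_two_right, Nat.mul_div_cancel' (Nat.even_mul_pred_self x).two_dvd]

/-- `s` pieces of size `q + 1` and `t - s` pieces of size `q` -/
def pieces (t q s : ℕ) : List ℕ := List.replicate s (q + 1) ++ List.replicate (t - s) q

theorem pieces_length (t q s : ℕ) (hs : s ≤ t) : (pieces t q s).length = t := by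
  simp [pieces, hs]

theorem pieces_sum (t q s : ℕ) (hs : s ≤ t) : (pieces t q s).sum = t * q + s := by
  simp only [pieces, List.sum_append, List.sum_replicate, smul_eq_mul]
  obtain ⟨u, rfl⟩ := Nat.exists_eq_add_of_le hs
  rw [Nat.add_sub_cancel_left]
  ring

theorem pieces_choose (t q s : ℕ) (hs : s ≤ t) (hq : 1 ≤ q) :
    2 * ((pieces t q s).map fun x => x.choose 2).sum = t * (q * (q - 1)) + 2 * s * q := by
  simp only [pieces, List.map_append, List.map_replicate, List.sum_append, List.sum_replicate,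
    smul_eq_mul]
  obtain ⟨u, rfl⟩ := Nat.exists_eq_add_of_le hs
  obtain ⟨w, rfl⟩ := Nat.exists_eq_add_of_le hq
  rw [Nat.add_sub_cancel_left, Nat.add_sub_cancel_left]
  have h1 := two_choose (1 + w + 1)
  have h2 := two_choose (1 + w)
  rw [Nat.add_sub_cancel] at h1
  rw [Nat.add_sub_cancel_left] at h2
  calc 2 * (s * (1 + w + 1).choose 2 + u * (1 + w).choose 2)
      = s * (2 * (1 + w + 1).choose 2) + u * (2 * (1 + w).choose 2) := by ring
    _ = _ := by rw [h1, h2]; ring

theorem pieces_pos (t q s : ℕ) (hq : 1 ≤ q) : ∀ x ∈ pieces t q s, 1 ≤ x := by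
  intro x hx
  simp only [pieces, List.mem_append, List.mem_replicate] at hx
  rcases hx with ⟨_, rfl⟩ | ⟨_, rfl⟩
  · omega
  · exact hq

end Maux

open Maux in
theorem t_M : T_M := by
  intro hR hHS hC1 hE hE0 n p hp G M hM t q r ht hq hr hn
  obtain ⟨r1, r2, hr1, hr2, hrr⟩ : ∃ r1 r2 : ℕ, r1 ≤ t ∧ r2 ≤ t ∧ r = r1 + r2 :=
    ⟨min r t, r - min r t, by omega, by omega, by omega⟩
  have hs1 := pieces_sum t q r1 hr1
  have hs2 := pieces_sum t q r2 hr2
  have hle : (pieces t q r1).sum ≤ n := by rw [hs1, hn, hrr]; nlinarith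
  obtain ⟨a, b, c, hav, hcard⟩ := hC1 n p hp.1 _ hle
  set A : Finset (Fin n) := univ.filter fun u => aff a b c (p u) < 0 with hA
  set B : Finset (Fin n) := univ.filter fun u => 0 < aff a b c (p u) with hB
  have hAB : A.card + B.card = n := by
    have h1 : Disjoint A B := by
      rw [Finset.disjoint_left]
      intro u hu hu'
      rw [hA, mem_filter] at hu
      rw [hB, mem_filter] at hu'
      linarith [hu.2, hu'.2]
    have h2 : A ∪ B = univ := by
      rw [Finset.eq_univ_iff_forall]
      intro u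
      rw [mem_union, hA, hB, mem_filter, mem_filter]
      rcases lt_or_gt_of_ne (hav.2 u) with h | h
      · exact Or.inl ⟨mem_univ _, h⟩
      · exact Or.inr ⟨mem_univ _, h⟩
    rw [← card_union_of_disjoint h1, h2, card_univ, Fintype.card_fin]
  have hBc : B.card = (pieces t q r2).sum := by
    rw [hs2]
    have h3 : n = (t * q + r1) + (t * q + r2) := by rw [hn, hrr]; ring
    rw [hcard, hs1] at hAB
    omega
  have hneg : ∀ u ∈ A, aff a b c (p u) < 0 := fun u hu => (mem_filter.1 hu).2
  have hpos : ∀ u ∈ B, 0 < aff a b c (p u) := fun u hu => (mem_filter.1 hu).2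
  have hlen : (pieces t q r1).length = (pieces t q r2).length := by
    rw [pieces_length _ _ _ hr1, pieces_length _ _ _ hr2]
  have hnil : pieces t q r1 ≠ [] := by
    intro h
    have := pieces_length t q r1 hr1
    rw [h] at this
    simp at this
    omega
  have h1 := hR hHS hE hE0 n p hp G M hM a b c hav.1 (pieces t q r1) (pieces t q r2) hlen hnil
    (pieces_pos t q r1 hq) (pieces_pos t q r2 hq) A B hneg hpos hcard hBc
  have h2 := (hE0 n p G).2 a b c hav
  have h3 := hM a b c hav
  have h4 := pieces_choose t q r1 hr1 hq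
  have h5 := pieces_choose t q r2 hr2 hq
  rw [pieces_length _ _ _ hr1] at h1
  have h6 : (t - 1) * M + M = t * M := by
    obtain ⟨w, rfl⟩ := Nat.exists_eq_add_of_le ht
    rw [Nat.add_sub_cancel_left]; ring
  have h7 : eAll G ≤ ((pieces t q r1).map fun x => x.choose 2).sum +
      ((pieces t q r2).map fun x => x.choose 2).sum + t * M := by
    rw [← h6]
    have h8 : eAll G ≤ eIn G A + eIn G B + (sepE p G a b c).card := h2
    omega
  have h9 : 2 * t * (q * (q - 1)) + 2 * r * q =
      (t * (q * (q - 1)) + 2 * r1 * q) + (t * (q * (q - 1)) + 2 * r2 * q) := by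
    rw [hrr]; ring
  have h10 : 2 * t * M = 2 * (t * M) := by ring
  rw [h9, h10]
  omega

end H162R2.LC
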